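import Pool.Agent.W130.RC.Cover
import Pool.Agent.W130.RC.Root

/-!
# One-sided Ramanujan coverings of all finite connected graphs with loops

Main steps (modules `Pool.Agent.W130.RC.*`): loops get conjugates of the cyclic permutation, whose
new part lies below the matrix of a path; the expected characteristic polynomial over independent
uniform permutations is computed by comparison with signed permutation matrices and is positive
above the spectral radius of the universal covering tree; a swap by swap argument in the upper half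
plane shows that some choice of the permutations does as well as the average.
-/

set_option autoImplicit false

open Polynomial Matrix

namespace Pool.Agent.Results.MP_eaea0b_co.AllCoverings

open Pool.Agent.W130.RC

/-- the covering adjacency matrix is symmetric -/
lemma covAdj_symm {V D : Type} [Fintype V] [DecidableEq V] [Fintype D] (G : MGraph V D) {r : ℕ}
    (σ : D → Equiv.Perm (Fin r)) (hσ : ∀ e, σ (G.rev e) = (σ e)⁻¹) : (G.covAdj σ).IsSymm := by
  ext x y
  simp only [Matrix.transpose_apply, MGraph.covAdj, Matrix.of_apply]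
  refine Fintype.sum_bijective G.rev
    (Function.Involutive.bijective (fun e => G.rev_rev e)) _ _ ?_
  intro e
  have h1 : G.tgt (G.rev e) = G.src e := by unfold MGraph.tgt; rw [G.rev_rev]
  have h2 : G.src (G.rev e) = G.tgt e := rfl
  have h3 : x.2 = (σ e)⁻¹ y.2 ↔ y.2 = σ e x.2 := by
    constructor
    · intro h; rw [h]; simp
    · intro h; rw [h]; simp
  rw [h1, h2, hσ]
  simp only [h3]
  congr 1
  simp only [eq_iff_iff]
  tauto

/-- **Every finite connected graph, with loops allowed, has a one-sided Ramanujan `r`-covering for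
every `r ≥ 2`.** Here `A` is the adjacency operator of the universal covering tree on the square
summable functions, and the new spectrum consists of the roots of `q`, where the characteristic
polynomial of the covering is that of the graph times `q`. -/
theorem result {V D : Type} [Fintype V] [DecidableEq V] [Fintype D] [DecidableEq D]
    (G : MGraph V D) (hG : G.Connected) (v₀ : V) :
    ∃ A : G.Op v₀, G.IsAdjOp v₀ A ∧
      ∀ r : ℕ, 2 ≤ r →
        ∃ σ : D → Equiv.Perm (Fin r), (∀ e, σ (G.rev e) = (σ e)⁻¹) ∧
          ∃ q : ℝ[X], (G.covAdj σ).charpoly = G.adj.charpoly * q ∧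
            ∀ z : ℂ, aeval z q = 0 → z.im = 0 ∧ z.re ≤ MGraph.specRad A := by
  classical
  -- neighbours in the tree
  let nb : G.Tree v₀ → Finset (G.Tree v₀) := fun a =>
    ((insert a.1.tail (Finset.univ.image (fun f => f :: a.1))).subtype (G.Red v₀)).filter
      (fun b => G.TAdj v₀ a b)
  have hnb : ∀ a b, b ∈ nb a ↔ G.TAdj v₀ a b := by
    intro a b
    simp only [nb, Finset.mem_filter, Finset.mem_subtype, Finset.mem_insert, Finset.mem_image,
      Finset.mem_univ, true_and]
    constructor
    · exact fun h => h.2
    · intro h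
      refine ⟨?_, h⟩
      rcases h with ⟨f, hf⟩ | ⟨f, hf⟩
      · right; exact ⟨f, hf.symm⟩
      · left; rw [hf]; rfl
  have hsym : ∀ a b, b ∈ nb a → a ∈ nb b := by
    intro a b h
    rw [hnb] at h ⊢
    exact h.symm
  have hcard : ∀ a, (nb a).card ≤ Fintype.card D + 1 := by
    intro a
    calc (nb a).card
        ≤ ((insert a.1.tail (Finset.univ.image (fun f => f :: a.1))).subtype
            (G.Red v₀)).card := Finset.card_filter_le _ _
      _ ≤ (insert a.1.tail (Finset.univ.image (fun f => f :: a.1))).card := by
          rw [Finset.card_subtype]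
          exact Finset.card_filter_le _ _
      _ ≤ (Finset.univ.image (fun f : D => f :: a.1)).card + 1 := Finset.card_insert_le _ _
      _ ≤ Fintype.card D + 1 := by
          have := Finset.card_image_le (s := (Finset.univ : Finset D)) (f := fun f => f :: a.1)
          rw [Finset.card_univ] at this
          omega
  obtain ⟨A, hA⟩ := exists_nbOp nb hsym (Fintype.card D + 1) hcard
  have hAop : ∀ (f : lp (fun _ : G.Tree v₀ => ℂ) 2) (a : G.Tree v₀),
      (A f : G.Tree v₀ → ℂ) a = ∑ᶠ (b : G.Tree v₀) (_ : G.TAdj v₀ a b),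
        (f : G.Tree v₀ → ℂ) b := by
    intro f a
    rw [hA]
    have h1 : ∑ᶠ (b : G.Tree v₀) (_ : G.TAdj v₀ a b), (f : G.Tree v₀ → ℂ) b
        = ∑ᶠ (b : G.Tree v₀) (_ : b ∈ ((nb a : Finset (G.Tree v₀)) : Set (G.Tree v₀))),
          (f : G.Tree v₀ → ℂ) b := by
      simp only [Finset.mem_coe, hnb]
    rw [h1, finsum_mem_coe_finset]
  set ρ := (spectralRadius ℂ A).toReal with hρ
  have hRQ : G.RQ v₀ ρ := by
    intro s φ
    have h1 := rayleigh_le nb hsym A hA s φ
    convert h1 using 6
    exact (hnb _ _).symm
  have hRB : ∀ v, G.RB v ρ := fun v => RB_of_RQ G v ρ (RQ_all G hG v₀ ρ hRQ v)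
  have : Nonempty V := ⟨v₀⟩
  refine ⟨A, hAop, ?_⟩
  intro r hr
  obtain ⟨k, rfl⟩ : ∃ k, r = k + 2 := ⟨r - 2, by omega⟩
  obtain ⟨σ, hσ, q, hq, hroot⟩ := exists_cover G k ρ hRB
  refine ⟨σ, hσ, q, hq, ?_⟩
  intro z hz
  have hz1 : aeval z (G.covAdj σ).charpoly = 0 := by
    rw [hq, map_mul, hz, mul_zero]
  have hyp := hyp_charpoly (G.covAdj σ) (covAdj_symm G σ hσ)
  have him : z.im = 0 := by
    rcases lt_trichotomy z.im 0 with h | h | h
    · exfalso
      apply hyp ((starRingEnd ℂ) z) (by simpa using h)
      have h2 := congrArg (starRingEnd ℂ) hz1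
      rw [map_zero, ← Polynomial.aeval_conj] at h2
      exact h2
    · exact h
    · exact absurd hz1 (hyp z h)
  refine ⟨him, ?_⟩
  apply hroot
  have h3 : z = ((z.re : ℝ) : ℂ) := by
    apply Complex.ext <;> simp [him]
  rw [h3] at hz
  have h4 : aeval ((z.re : ℝ) : ℂ) q = ((q.eval z.re : ℝ) : ℂ) :=
    Polynomial.aeval_algebraMap_apply_eq_algebraMap_eval z.re q
  rw [h4] at hz
  exact Complex.ofReal_eq_zero.1 hz

end Pool.Agent.Results.MP_eaea0b_co.AllCoverings
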